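import Pool.Agent.R770.NS.Sharp

/-!
# Three planes: the cube of the element of a torus invariant tensor
-/

set_option autoImplicit false

namespace Pool.Agent.Helper147.HT

open Finset

section ring

variable {A : Type} [CommRing A]

/-- the relations of the even elements of one plane -/
structure Pl (p : Fin 4 → A) (t : A) : Prop where
  pp : ∀ a b, p a * p b = if a = b then t else 0
  pt : ∀ a, t * p a = 0
  tt : t * t = 0

/-- the pairing of two planes -/
def Y (g p q : Fin 4 → A) : A := ∑ a, g a * (p a * q a)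

theorem Y_comm (g p q : Fin 4 → A) : Y g p q = Y g q p := by
  simp only [Y, mul_comm (p _)]

theorem Y_mul {p q r g h : Fin 4 → A} {t : A} (hp : Pl p t) :
    Y g p q * Y h p r = t * Y (fun a => g a * h a) q r := by
  unfold Y
  rw [Finset.sum_mul_sum, Finset.mul_sum]
  refine Finset.sum_congr rfl fun a _ => ?_
  rw [Finset.sum_eq_single a]
  · have h1 := hp.pp a a
    rw [if_pos rfl] at h1
    rw [← h1]
    ring
  · intro b _ hb
    have h1 := hp.pp a b
    rw [if_neg (Ne.symm hb)] at h1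
    linear_combination (g a * q a * h b * r b) * h1
  · intro h
    exact absurd (mem_univ a) h

theorem t_Y {p q g : Fin 4 → A} {t : A} (hp : Pl p t) : t * Y g p q = 0 := by
  simp only [Y, Finset.mul_sum]
  refine Finset.sum_eq_zero fun a _ => ?_
  linear_combination (g a * q a) * hp.pt a

theorem Y_self {p g : Fin 4 → A} {t : A} (hp : Pl p t) : Y g p p = t * ∑ a, g a := by
  simp only [Y, Finset.mul_sum]
  refine Finset.sum_congr rfl fun a _ => ?_
  have h1 := hp.pp a a
  rw [if_pos rfl] at h1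
  rw [h1]
  ring

theorem cube_ideal {t₁ t₂ t₃ x y z a b c s₁ s₂ s₃ u : A} (h1 : t₁ * t₁ = 0) (h2 : t₂ * t₂ = 0)
    (h3 : t₃ * t₃ = 0) (hx1 : t₁ * x = 0) (hx2 : t₂ * x = 0) (hy1 : t₁ * y = 0)
    (hy3 : t₃ * y = 0) (hz2 : t₂ * z = 0) (hz3 : t₃ * z = 0)
    (hxx : x * x = t₁ * t₂ * s₃) (hyy : y * y = t₁ * t₃ * s₂) (hzz : z * z = t₂ * t₃ * s₁)
    (hxyz : x * y * z = t₁ * t₂ * t₃ * u) :
    (a * t₁ + b * t₂ + c * t₃ + (x + y + z)) ^ 3 =
      (6 * (a * b * c) + 3 * (a * s₁ + b * s₂ + c * s₃) + 6 * u) * (t₁ * t₂ * t₃) := by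
  grind

end ring

end Pool.Agent.Helper147.HT
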