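import Pool.Agent.Helper147.HT.T1

/-!
# The even elements of the coordinate planes
-/

set_option autoImplicit false

namespace Pool.Agent.Helper147.HT

open Pool.Agent.Y195.HF Pool.Agent.R770.NS Finset
open Pool.Agent.W669.HD (T4)

theorem pl_of {A : Type} [CommRing A] {P Q S T U W i : A} (hi : i * i = -1)
    (hPP : P * P = 0) (hQQ : Q * Q = 0) (hSS : S * S = 0) (hTT : T * T = 0) (hUU : U * U = 0)
    (hWW : W * W = 0) (hPQ : P * Q = -(S * T)) (hUW : U * W = -(S * T))
    (hPS : P * S = 0) (hPT : P * T = 0) (hPU : P * U = 0) (hPW : P * W = 0)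
    (hQS : Q * S = 0) (hQT : Q * T = 0) (hQU : Q * U = 0) (hQW : Q * W = 0)
    (hSU : S * U = 0) (hSW : S * W = 0) (hTU : T * U = 0) (hTW : T * W = 0) :
    Pl ![P - Q, i * (P + Q), U - W, S + T] (2 * (S * T)) := by
  refine ⟨?_, ?_, ?_⟩
  · intro a b
    fin_cases a <;> fin_cases b <;> simp <;> grind
  · intro a
    fin_cases a <;> simp <;> grind
  · grind

variable {m : ℕ}

noncomputable def eP (k : Fin m) : Zc (I2 m → ℂ) := bv (th m false (k, false)) (th m false (k, true))
noncomputable def eQ (k : Fin m) : Zc (I2 m → ℂ) := bv (th m true (k, false)) (th m true (k, true))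
noncomputable def eS (k : Fin m) : Zc (I2 m → ℂ) := bv (th m false (k, false)) (th m true (k, false))
noncomputable def eT (k : Fin m) : Zc (I2 m → ℂ) := bv (th m false (k, true)) (th m true (k, true))
noncomputable def eU (k : Fin m) : Zc (I2 m → ℂ) := bv (th m false (k, false)) (th m true (k, true))
noncomputable def eW (k : Fin m) : Zc (I2 m → ℂ) := bv (th m false (k, true)) (th m true (k, false))

noncomputable def pl (k : Fin m) : Fin 4 → Zc (I2 m → ℂ) :=
  ![eP k - eQ k, algebraMap ℂ _ Complex.I * (eP k + eQ k), eU k - eW k, eS k + eT k]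

noncomputable def tt (k : Fin m) : Zc (I2 m → ℂ) := 2 * (eS k * eT k)

theorem pl_pl (k : Fin m) : Pl (pl k) (tt k) := by
  have z : ∀ {u v w z : I2 m → ℂ}, ((u = w ∨ u = z) ∨ (v = w ∨ v = z)) → bv u v * bv w z = 0 :=
    fun h => bv_mul_zero h
  refine pl_of ?_ (z (by simp)) (z (by simp)) (z (by simp)) (z (by simp)) (z (by simp))
    (z (by simp)) ?_ ?_ (z (by simp)) (z (by simp)) (z (by simp)) (z (by simp)) (z (by simp))
    (z (by simp)) (z (by simp)) (z (by simp)) (z (by simp)) (z (by simp)) (z (by simp))
    (z (by simp))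
  · rw [← map_mul, Complex.I_mul_I, map_neg, map_one]
  · exact bv_exch _ _ _ _
  · have h1 := bv_exch (th m false (k, false)) (th m true (k, true)) (th m false (k, true))
      (th m true (k, false))
    have h2 := bv_exch (th m false (k, false)) (th m false (k, true)) (th m true (k, false))
      (th m true (k, true))
    have h3 := bv_swap (th m true (k, false)) (th m true (k, true))
    simp only [eU, eW, eS, eT]
    rw [h1, h3]
    linear_combination h2

/-- the skew matrix of a plane -/
def om (k : Fin m) (i j : Fin m × Bool) : ℝ :=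
  if i = (k, false) ∧ j = (k, true) then 1 else if i = (k, true) ∧ j = (k, false) then -1 else 0

/-- the symmetric matrix of a plane -/
def un (k : Fin m) (i j : Fin m × Bool) : ℝ := if i = j ∧ i.1 = k then 1 else 0

theorem ff_om (s t : Bool) (k : Fin m) : ff s t (cm (om k)) =
    bv (th m s (k, false)) (th m t (k, true)) - bv (th m s (k, true)) (th m t (k, false)) := by
  have h1 : ∀ i j : Fin m × Bool, cm (om k) i j • bv (th m s i) (th m t j) =
      (if i = (k, false) ∧ j = (k, true) then bv (th m s (k, false)) (th m t (k, true)) else 0) -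
      (if i = (k, true) ∧ j = (k, false) then bv (th m s (k, true)) (th m t (k, false)) else 0) := by
    intro i j
    simp only [cm, om]
    by_cases h : i = (k, false) ∧ j = (k, true)
    · obtain ⟨rfl, rfl⟩ := h
      simp
    · rw [if_neg h, if_neg h]
      by_cases h' : i = (k, true) ∧ j = (k, false)
      · obtain ⟨rfl, rfl⟩ := h'
        simp
      · rw [if_neg h', if_neg h']
        simp
  simp only [ff, h1, Finset.sum_sub_distrib, ite_and]
  simp

theorem ff_un (k : Fin m) : ff false true (cm (un k)) = eS k + eT k := by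
  have h1 : cm (un k) = (fun i j => if i = j then (if i.1 = k then (1 : ℂ) else 0) else 0 : Mt m) := by
    funext i j
    simp only [cm, un]
    by_cases h : i = j
    · subst h
      by_cases h' : i.1 = k <;> simp [h']
    · simp [h]
  rw [h1, ff_diag, Fintype.sum_prod_type]
  simp [sd, eS, eT, add_comm]

end Pool.Agent.Helper147.HT
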