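import Pool.Agent.Helper147.HT.T2

/-!
# The Gauss-Bonnet-Chern form of the torus invariant tensors in dimension six
-/

set_option autoImplicit false

namespace Pool.Agent.Helper147.HT

open Pool.Agent.Y195.HF Pool.Agent.R770.NS Finset
open Pool.Agent.W669.HD (T4 gm)

section gen

variable {m : ℕ}

/-- the mixed tensor of two skew matrices of planes -/
def pS (k l : Fin m) : T4 m := fun i j p q =>
  2 * (om k i j * om l p q + om l i j * om k p q) + (om k i p * om l j q + om l i p * om k j q) -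
    (om k i q * om l j p + om l i q * om k j p)

/-- the mixed tensor of two symmetric matrices of planes -/
def pK (k l : Fin m) : T4 m := fun i j p q =>
  un k i p * un l j q + un l i p * un k j q - (un k i q * un l j p + un l i q * un k j p)

theorem cm_add (A B : Fin m × Bool → Fin m × Bool → ℝ) :
    cm (fun i j => A i j + B i j) = cm A + cm B := by
  funext i j
  simp [cm]

theorem ff00 (k : Fin m) : ff false false (cm (om k)) = 2 * eP k := by
  rw [ff_om, bv_swap (th m false (k, false)) (th m false (k, true)), eP]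
  ring

theorem ff11 (k : Fin m) : ff true true (cm (om k)) = 2 * eQ k := by
  rw [ff_om, bv_swap (th m true (k, false)) (th m true (k, true)), eQ]
  ring

theorem ff01 (k : Fin m) : ff false true (cm (om k)) = eU k - eW k := by
  rw [ff_om, eU, eW]

theorem eL_om (k : Fin m) : eL (cx (fun i j p q => om k i j * om k p q : T4 m)) = -2 * tt k := by
  have h1 : (cx (fun i j p q => om k i j * om k p q : T4 m)) =
      fun i j p q => cm (om k) i j * cm (om k) p q := by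
    funext i j p q
    simp only [cx, cm]
    push_cast
    rfl
  rw [h1, eL_mul, ff00, ff11, tt]
  have h2 := bv_exch (th m false (k, false)) (th m false (k, true)) (th m true (k, false))
      (th m true (k, true))
  simp only [eP, eQ, eS, eT]
  linear_combination 4 * h2

theorem I_sq' : algebraMap ℂ (Zc (I2 m → ℂ)) Complex.I * algebraMap ℂ (Zc (I2 m → ℂ)) Complex.I =
    -1 := by
  rw [← map_mul, Complex.I_mul_I, map_neg, map_one]

theorem eL_pS (k l : Fin m) : eL (cx (pS k l)) =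
    -4 * (pl k 0 * pl l 0 + pl k 1 * pl l 1 + pl k 2 * pl l 2) := by
  have h1 : (cx (pS k l) : C4 m) = fun i j p q =>
      (cx (scR fun i j => om k i j + om l i j) i j p q + (-1 : ℂ) * cx (scR (om k)) i j p q) +
        (-1 : ℂ) * cx (scR (om l)) i j p q := by
    funext i j p q
    simp only [cx, pS, scR]
    push_cast
    ring
  rw [h1, eL_add (fun i j p q => cx (scR fun i j => om k i j + om l i j) i j p q +
      (-1 : ℂ) * cx (scR (om k)) i j p q) (fun i j p q => (-1 : ℂ) * cx (scR (om l)) i j p q),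
    eL_add (cx (scR fun i j => om k i j + om l i j)) (fun i j p q =>
      (-1 : ℂ) * cx (scR (om k)) i j p q), eL_smul, eL_smul, eL_scR, eL_scR, eL_scR, cm_add]
  simp only [qi, ff_add, ff00, ff11, ff01, Algebra.smul_def, map_neg, map_ofNat, map_one]
  have h2 : pl k 0 = eP k - eQ k := rfl
  have h3 : pl k 1 = algebraMap ℂ _ Complex.I * (eP k + eQ k) := rfl
  have h4 : pl k 2 = eU k - eW k := rfl
  have h5 : pl l 0 = eP l - eQ l := rfl
  have h6 : pl l 1 = algebraMap ℂ _ Complex.I * (eP l + eQ l) := rfl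
  have h7 : pl l 2 = eU l - eW l := rfl
  rw [h2, h3, h4, h5, h6, h7]
  have h8 := I_sq' (m := m)
  linear_combination (4 * (eP k + eQ k) * (eP l + eQ l)) * h8

theorem eL_pK (k l : Fin m) : eL (cx (pK k l)) = -4 * (pl k 3 * pl l 3) := by
  have h1 : (cx (pK k l) : C4 m) = fun i j p q =>
      (cx (kR fun i j => un k i j + un l i j) i j p q + (-1 : ℂ) * cx (kR (un k)) i j p q) +
        (-1 : ℂ) * cx (kR (un l)) i j p q := by
    funext i j p q
    simp only [cx, pK, kR]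
    push_cast
    ring
  rw [h1, eL_add (fun i j p q => cx (kR fun i j => un k i j + un l i j) i j p q +
      (-1 : ℂ) * cx (kR (un k)) i j p q) (fun i j p q => (-1 : ℂ) * cx (kR (un l)) i j p q),
    eL_add (cx (kR fun i j => un k i j + un l i j)) (fun i j p q =>
      (-1 : ℂ) * cx (kR (un k)) i j p q), eL_smul, eL_smul, eL_kR, eL_kR, eL_kR, cm_add]
  simp only [ff_add, ff_un, Algebra.smul_def, map_neg, map_ofNat, map_one]
  have h2 : pl k 3 = eS k + eT k := rfl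
  have h3 : pl l 3 = eS l + eT l := rfl
  rw [h2, h3]
  ring

end gen

/-- the torus invariant tensors; `b k` and `c k` belong to the pair of the two other planes -/
def Tor (a b c : Fin 3 → ℝ) : T4 3 := fun i j p q =>
  ∑ k, a k * (om k i j * om k p q) +
    ((b 0 * pS 1 2 i j p q + (b 1 * pS 0 2 i j p q + b 2 * pS 0 1 i j p q)) +
      (c 0 * pK 1 2 i j p q + (c 1 * pK 0 2 i j p q + c 2 * pK 0 1 i j p q)))

/-- the coefficients of a pair -/
noncomputable def gg (β γ : ℝ) : Fin 4 → Zc (I2 3 → ℂ) :=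
  ![algebraMap ℝ _ (2 * β), algebraMap ℝ _ (2 * β), algebraMap ℝ _ (2 * β), algebraMap ℝ _ (2 * γ)]

theorem Y_gg (β γ : ℝ) (k l : Fin 3) : Y (gg β γ) (pl k) (pl l) =
    algebraMap ℝ _ (2 * β) * (pl k 0 * pl l 0 + pl k 1 * pl l 1 + pl k 2 * pl l 2) +
      algebraMap ℝ _ (2 * γ) * (pl k 3 * pl l 3) := by
  rw [Y, Fin.sum_univ_four]
  simp only [gg, Matrix.cons_val]
  ring

theorem eL_rsmul {m : ℕ} (r : ℝ) (K : T4 m) : eL (cx (fun i j p q => r * K i j p q)) =
    algebraMap ℝ _ r * eL (cx K) := by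
  have h1 : (cx (fun i j p q => r * K i j p q : T4 m)) = fun i j p q => (r : ℂ) * cx K i j p q := by
    funext i j p q
    simp only [cx]
    push_cast
    rfl
  rw [h1, eL_smul, ← Algebra.smul_def, Complex.coe_smul]

theorem eL_radd {m : ℕ} (K L : T4 m) : eL (cx (fun i j p q => K i j p q + L i j p q)) =
    eL (cx K) + eL (cx L) := by
  rw [← eL_add]
  congr 1
  funext i j p q
  simp only [cx]
  push_cast
  rfl

theorem eL_Tor (a b c : Fin 3 → ℝ) : eL (cx (Tor a b c)) = -2 *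
    (algebraMap ℝ _ (a 0) * tt 0 + algebraMap ℝ _ (a 1) * tt 1 + algebraMap ℝ _ (a 2) * tt 2 +
      (Y (gg (b 2) (c 2)) (pl 0) (pl 1) + Y (gg (b 1) (c 1)) (pl 0) (pl 2) +
        Y (gg (b 0) (c 0)) (pl 1) (pl 2))) := by
  have h1 : Tor a b c = fun i j p q =>
      ((a 0 * (om 0 i j * om 0 p q) + a 1 * (om 1 i j * om 1 p q)) + a 2 * (om 2 i j * om 2 p q)) +
    ((b 0 * pS 1 2 i j p q + (b 1 * pS 0 2 i j p q + b 2 * pS 0 1 i j p q)) +
      (c 0 * pK 1 2 i j p q + (c 1 * pK 0 2 i j p q + c 2 * pK 0 1 i j p q))) := by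
    funext i j p q
    rw [Tor, Fin.sum_univ_three]
  rw [h1, eL_radd (fun i j p q => (a 0 * (om 0 i j * om 0 p q) + a 1 * (om 1 i j * om 1 p q)) +
      a 2 * (om 2 i j * om 2 p q)) (fun i j p q => (b 0 * pS 1 2 i j p q +
        (b 1 * pS 0 2 i j p q + b 2 * pS 0 1 i j p q)) +
      (c 0 * pK 1 2 i j p q + (c 1 * pK 0 2 i j p q + c 2 * pK 0 1 i j p q))),
    eL_radd (fun i j p q => a 0 * (om 0 i j * om 0 p q) + a 1 * (om 1 i j * om 1 p q))
      (fun i j p q => a 2 * (om 2 i j * om 2 p q)),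
    eL_radd (fun i j p q => a 0 * (om 0 i j * om 0 p q)) (fun i j p q => a 1 * (om 1 i j * om 1 p q)),
    eL_radd (fun i j p q => b 0 * pS 1 2 i j p q + (b 1 * pS 0 2 i j p q + b 2 * pS 0 1 i j p q))
      (fun i j p q => c 0 * pK 1 2 i j p q + (c 1 * pK 0 2 i j p q + c 2 * pK 0 1 i j p q)),
    eL_radd (fun i j p q => b 0 * pS 1 2 i j p q)
      (fun i j p q => b 1 * pS 0 2 i j p q + b 2 * pS 0 1 i j p q),
    eL_radd (fun i j p q => b 1 * pS 0 2 i j p q) (fun i j p q => b 2 * pS 0 1 i j p q),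
    eL_radd (fun i j p q => c 0 * pK 1 2 i j p q)
      (fun i j p q => c 1 * pK 0 2 i j p q + c 2 * pK 0 1 i j p q),
    eL_radd (fun i j p q => c 1 * pK 0 2 i j p q) (fun i j p q => c 2 * pK 0 1 i j p q),
    eL_rsmul (a 0) (fun i j p q => om 0 i j * om 0 p q),
    eL_rsmul (a 1) (fun i j p q => om 1 i j * om 1 p q),
    eL_rsmul (a 2) (fun i j p q => om 2 i j * om 2 p q)]
  rw [eL_rsmul, eL_rsmul, eL_rsmul, eL_rsmul, eL_rsmul, eL_rsmul]
  simp only [eL_om, eL_pS, eL_pK, Y_gg, map_mul, map_ofNat]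
  ring

/-- the cubic form -/
def FF (a b c : Fin 3 → ℝ) : ℝ :=
  a 0 * a 1 * a 2 + 2 * (a 0 * (c 0 ^ 2 + 3 * b 0 ^ 2) + a 1 * (c 1 ^ 2 + 3 * b 1 ^ 2) +
    a 2 * (c 2 ^ 2 + 3 * b 2 ^ 2)) + 8 * (c 0 * c 1 * c 2 + 3 * (b 0 * b 1 * b 2))

theorem cube_planes (a b c : Fin 3 → ℝ) :
    (algebraMap ℝ (Zc (I2 3 → ℂ)) (a 0) * tt 0 + algebraMap ℝ _ (a 1) * tt 1 +
      algebraMap ℝ _ (a 2) * tt 2 +
      (Y (gg (b 2) (c 2)) (pl 0) (pl 1) + Y (gg (b 1) (c 1)) (pl 0) (pl 2) +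
        Y (gg (b 0) (c 0)) (pl 1) (pl 2))) ^ 3 =
      algebraMap ℝ _ (6 * FF a b c) * (tt 0 * tt 1 * tt 2) := by
  have p0 := pl_pl (0 : Fin 3)
  have p1 := pl_pl (1 : Fin 3)
  have p2 := pl_pl (2 : Fin 3)
  have sq : ∀ (β γ : ℝ), (∑ x, gg β γ x * gg β γ x) =
      algebraMap ℝ (Zc (I2 3 → ℂ)) (4 * (3 * β ^ 2 + γ ^ 2)) := by
    intro β γ
    rw [Fin.sum_univ_four]
    simp only [gg, Matrix.cons_val, map_mul, map_ofNat, map_add, map_pow]
    ring
  have key := cube_ideal (a := algebraMap ℝ (Zc (I2 3 → ℂ)) (a 0)) (b := algebraMap ℝ _ (a 1))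
    (c := algebraMap ℝ _ (a 2)) (x := Y (gg (b 2) (c 2)) (pl 0) (pl 1))
    (y := Y (gg (b 1) (c 1)) (pl 0) (pl 2)) (z := Y (gg (b 0) (c 0)) (pl 1) (pl 2))
    (s₁ := algebraMap ℝ _ (4 * (3 * b 0 ^ 2 + c 0 ^ 2)))
    (s₂ := algebraMap ℝ _ (4 * (3 * b 1 ^ 2 + c 1 ^ 2)))
    (s₃ := algebraMap ℝ _ (4 * (3 * b 2 ^ 2 + c 2 ^ 2)))
    (u := algebraMap ℝ _ (8 * (3 * (b 0 * b 1 * b 2) + c 0 * c 1 * c 2)))
    p0.tt p1.tt p2.tt (t_Y p0) (by rw [Y_comm]; exact t_Y p1) (t_Y p0)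
    (by rw [Y_comm]; exact t_Y p2) (t_Y p1) (by rw [Y_comm]; exact t_Y p2)
    (by rw [Y_mul p0, Y_self p1, sq]; ring) (by rw [Y_mul p0, Y_self p2, sq]; ring)
    (by rw [Y_mul p1, Y_self p2, sq]; ring)
    (by
      rw [Y_mul p0, mul_assoc, Y_mul p1, Y_self p2, Fin.sum_univ_four]
      simp only [gg, Matrix.cons_val, map_mul, map_ofNat, map_add]
      ring)
  rw [key]
  simp only [FF, map_mul, map_ofNat, map_add, map_pow]
  ring

theorem LR_rsmul (r : ℝ) (x : Zc (I2 3 → ℂ)) : LR 3 (algebraMap ℝ _ r * x) = r * LR 3 x := by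
  rw [← Algebra.smul_def, map_smul, smul_eq_mul]

theorem LR_ttt : LR 3 (tt 0 * tt 1 * tt 2) = -8 := by
  have h1 := LR_unit (m := 3)
  have h2 : ((∑ z, sd z) ^ 2 : Zc (I2 3 → ℂ)) =
      algebraMap ℝ (Zc (I2 3 → ℂ)) 1 * tt 0 + algebraMap ℝ _ 1 * tt 1 +
      algebraMap ℝ _ 1 * tt 2 +
      (Y (gg 0 1) (pl 0) (pl 1) + Y (gg 0 1) (pl 0) (pl 2) + Y (gg 0 1) (pl 1) (pl 2)) := by
    have h3 : (∑ z, sd z : Zc (I2 3 → ℂ)) = pl 0 3 + pl 1 3 + pl 2 3 := by
      rw [Fintype.sum_prod_type, Fin.sum_univ_three]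
      simp only [Fintype.sum_bool, sd, pl, eS, eT, Matrix.cons_val]
      ring
    have h4 : ∀ k : Fin 3, pl k 3 * pl k 3 = tt k := fun k => by
      have := (pl_pl k).pp 3 3
      rwa [if_pos rfl] at this
    rw [h3, Y_gg, Y_gg, Y_gg]
    simp only [mul_zero, map_zero, map_one, mul_one, zero_mul, zero_add, map_ofNat]
    linear_combination h4 0 + h4 1 + h4 2
  have h5 := cube_planes (fun _ => 1) (fun _ => 0) (fun _ => 1)
  beta_reduce at h5
  rw [← h2] at h5
  have h6 : (((-2 : ℝ) • (∑ z, sd z) ^ 2) ^ 3 : Zc (I2 3 → ℂ)) =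
      algebraMap ℝ _ (-8 * (6 * FF (fun _ => 1) (fun _ => 0) (fun _ => 1))) *
        (tt 0 * tt 1 * tt 2) := by
    have h9 : (-2 : ℝ) ^ 3 = -8 := by norm_num
    rw [smul_pow, h9, h5, Algebra.smul_def, map_mul _ (-8 : ℝ)]
    ring
  rw [h6, LR_rsmul] at h1
  have h7 : FF (fun _ => 1) (fun _ => 0) (fun _ => 1) = 15 := by
    norm_num [FF]
  rw [h7] at h1
  have h8 : ((2 * 3 : ℕ).factorial : ℝ) = 720 := by norm_num [Nat.factorial]
  rw [h8] at h1
  linarith

theorem gm_Tor (a b c : Fin 3 → ℝ) : gm (fun _ : Fin 3 => Tor a b c) = 384 * FF a b c := by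
  rw [gm_LR, eL_Tor, mul_pow, cube_planes]
  have h1 : ((-2 : Zc (I2 3 → ℂ)) ^ 3 * (algebraMap ℝ _ (6 * FF a b c) * (tt 0 * tt 1 * tt 2))) =
      algebraMap ℝ _ (-48 * FF a b c) * (tt 0 * tt 1 * tt 2) := by
    simp only [map_mul, map_ofNat, map_neg]
    ring
  rw [h1, LR_rsmul, LR_ttt]
  ring

end Pool.Agent.Helper147.HT
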