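import Pool.Agent.Helper147.HT.T1
import Pool.Agent.W669.HD.FiveFin

/-!
# Tensors which are invariant under the quarter turns of three planes
-/

set_option autoImplicit false

namespace Pool.Agent.Helper147.HT

open Pool.Agent.W669.HD (T4)

/-- the sign of the quarter turn of the plane `k` -/
def sg (k : Fin 3) (i : Fin 3 × Bool) : ℝ := if i = (k, true) then -1 else 1

/-- the index of the quarter turn of the plane `k` -/
def tn (k : Fin 3) (i : Fin 3 × Bool) : Fin 3 × Bool := if i.1 = k then (k, !i.2) else i

/-- the symbol of a plane -/
def ep (s t : Bool) : ℝ := if s = t then 0 else if t = true then 1 else -1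

/-- Curvature-like components which are invariant under the quarter turns of the three planes. -/
structure QI (K : T4 3) : Prop where
  anti : ∀ i j p q, K i j p q = - K j i p q
  pair : ∀ i j p q, K i j p q = K p q i j
  bia : ∀ i j p q, K i j p q + K j p i q + K p i j q = 0
  turn : ∀ k i j p q, sg k i * sg k j * sg k p * sg k q *
    K (tn k i) (tn k j) (tn k p) (tn k q) = K i j p q

namespace QI

variable {K : T4 3} (h : QI K)

include h

theorem anti' (i j p q : Fin 3 × Bool) : K i j p q = - K i j q p := by
  rw [h.pair i j p q, h.anti p q i j, h.pair q p i j]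

theorem same (i p q : Fin 3 × Bool) : K i i p q = 0 := by
  have := h.anti i i p q
  linarith

theorem same' (i j p : Fin 3 × Bool) : K i j p p = 0 := by
  have := h.anti' i j p p
  linarith

theorem half (k : Fin 3) (i j p q : Fin 3 × Bool) : K i j p q =
    (if i.1 = k then -1 else 1) * (if j.1 = k then -1 else 1) * (if p.1 = k then -1 else 1) *
      (if q.1 = k then -1 else 1) * K i j p q := by
  have e1 : ∀ i : Fin 3 × Bool, tn k (tn k i) = i := by
    rintro ⟨a, s⟩
    simp only [tn]
    by_cases ha : a = k
    · subst ha
      simp
    · simp [ha]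
  have e2 : ∀ i : Fin 3 × Bool, sg k i * sg k (tn k i) = if i.1 = k then -1 else 1 := by
    rintro ⟨a, s⟩
    simp only [tn, sg]
    by_cases ha : a = k
    · subst ha
      cases s <;> simp
    · simp [ha]
  have h1 := h.turn k i j p q
  have h2 := h.turn k (tn k i) (tn k j) (tn k p) (tn k q)
  rw [e1, e1, e1, e1] at h2
  rw [← e2 i, ← e2 j, ← e2 p, ← e2 q]
  conv_lhs => rw [← h1, ← h2]
  ring

theorem mixed {P Q : Fin 3} (hPQ : P ≠ Q) (s t u v : Bool) : K (P, s) (Q, t) (P, u) (Q, v) =
    K (P, false) (Q, false) (P, false) (Q, false) * ((if s = u then 1 else 0) *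
      (if t = v then 1 else 0)) +
    K (P, false) (Q, false) (P, true) (Q, true) * (ep s u * ep t v) := by
  have hP : ∀ s t u v : Bool, (if s then -1 else 1) * (if u then -1 else 1) *
      K (P, !s) (Q, t) (P, !u) (Q, v) = K (P, s) (Q, t) (P, u) (Q, v) := by
    intro s t u v
    have h1 := h.turn P (P, s) (Q, t) (P, u) (Q, v)
    simp only [sg, tn, Prod.mk.injEq, hPQ.symm, true_and, false_and, if_true, if_false] at h1
    rw [← h1]
    ring
  have hQ : ∀ s t u v : Bool, (if t then -1 else 1) * (if v then -1 else 1) *
      K (P, s) (Q, !t) (P, u) (Q, !v) = K (P, s) (Q, t) (P, u) (Q, v) := by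
    intro s t u v
    have h1 := h.turn Q (P, s) (Q, t) (P, u) (Q, v)
    simp only [sg, tn, Prod.mk.injEq, hPQ, true_and, false_and, if_true, if_false] at h1
    rw [← h1]
    ring
  have p1 := h.pair (P, false) (Q, false) (P, true) (Q, false)
  have p2 := h.pair (P, false) (Q, false) (P, false) (Q, true)
  have p3 := h.pair (P, false) (Q, true) (P, true) (Q, true)
  have p4 := h.pair (P, true) (Q, false) (P, true) (Q, true)
  have p5 := h.pair (P, false) (Q, false) (P, true) (Q, true)
  have p6 := h.pair (P, false) (Q, true) (P, true) (Q, false)
  have a1 := hP false false false false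
  have a2 := hP false true false true
  have a3 := hQ false false false false
  have a4 := hQ true false true false
  have b1 := hP false false true false
  have b2 := hP false true true true
  have b3 := hP false false true true
  have b4 := hP false true true false
  have b5 := hP false false false true
  have b6 := hP false true false false
  have c1 := hQ false false false true
  have c2 := hQ true false true true
  have c3 := hQ false false true true
  have c4 := hQ true false false true
  have c5 := hQ false false true false
  have c6 := hQ true false false false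
  simp only [Bool.not_false, Bool.not_true, Bool.false_eq_true, if_true, if_false] at a1 a2 a3 a4 b1 b2 b3 b4 b5 b6 c1 c2 c3 c4 c5 c6
  cases s <;> cases t <;> cases u <;> cases v <;> simp only [ep, reduceCtorEq, if_true, if_false] <;>
    linarith

theorem planes {P Q : Fin 3} (hPQ : P ≠ Q) :
    K (P, false) (P, true) (Q, false) (Q, true) =
      2 * K (P, false) (Q, false) (P, true) (Q, true) := by
  have h1 := h.bia (P, false) (P, true) (Q, false) (Q, true)
  have h2 := h.mixed hPQ true false false true
  have h3 := h.anti (Q, false) (P, false) (P, true) (Q, true)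
  simp only [ep, reduceCtorEq, if_true, if_false] at h2
  linarith

theorem ep_first (i j : Fin 3 × Bool) (P : Fin 3) (s t : Bool) : K (P, s) (P, t) i j =
    ep s t * K (P, false) (P, true) i j := by
  cases s <;> cases t <;> simp only [ep, reduceCtorEq, if_true, if_false]
  · rw [h.same]
    ring
  · ring
  · rw [h.anti (P, true)]
    ring
  · rw [h.same]
    ring

theorem ep_second (i j : Fin 3 × Bool) (P : Fin 3) (s t : Bool) : K i j (P, s) (P, t) =
    ep s t * K i j (P, false) (P, true) := by
  rw [h.pair i j, h.ep_first, h.pair i j]

theorem odd {P Q R S : Fin 3} (s t u v : Bool)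
    (hh : ∃ k : Fin 3, ((if P = k then (-1 : ℝ) else 1) * (if Q = k then -1 else 1) *
      (if R = k then -1 else 1) * (if S = k then -1 else 1)) = -1) :
    K (P, s) (Q, t) (R, u) (S, v) = 0 := by
  obtain ⟨k, hk⟩ := hh
  have h1 := h.half k (P, s) (Q, t) (R, u) (S, v)
  simp only at h1
  rw [hk] at h1
  linarith

end QI

end Pool.Agent.Helper147.HT
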