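import Pool.Agent.Helper147.HT.T3
import Pool.Agent.Helper147.HT.T4

/-!
# The components of the invariant tensors
-/

set_option autoImplicit false

namespace Pool.Agent.Helper147.HT

open Pool.Agent.W669.HD (T4)

theorem om_eq (k P Q : Fin 3) (s t : Bool) :
    om k (P, s) (Q, t) = if P = k ∧ Q = k then ep s t else 0 := by
  simp only [om, Prod.mk.injEq, ep]
  by_cases hP : P = k <;> by_cases hQ : Q = k <;> cases s <;> cases t <;> simp [hP, hQ]

theorem un_eq (k P Q : Fin 3) (s t : Bool) :
    un k (P, s) (Q, t) = if P = k ∧ Q = k then (if s = t then 1 else 0) else 0 := by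
  simp only [un, Prod.mk.injEq]
  by_cases hP : P = k
  · subst hP
    by_cases hQ : Q = P
    · subst hQ
      simp
    · have hQ' : ¬ P = Q := fun h => hQ h.symm
      simp [hQ, hQ']
  · simp [hP]

/-- closed form of the components -/
def CF (a : Fin 3 → ℝ) (β γ : Fin 3 → Fin 3 → ℝ) (i j p q : Fin 3 × Bool) : ℝ :=
  if i.1 = j.1 then
    (if p.1 = q.1 then (if i.1 = p.1 then a i.1 else 2 * β i.1 p.1) * (ep i.2 j.2 * ep p.2 q.2)
      else 0)
  else if i.1 = p.1 ∧ j.1 = q.1 then
    γ i.1 j.1 * ((if i.2 = p.2 then 1 else 0) * (if j.2 = q.2 then 1 else 0)) +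
      β i.1 j.1 * (ep i.2 p.2 * ep j.2 q.2)
  else if i.1 = q.1 ∧ j.1 = p.1 then
    -(γ i.1 j.1 * ((if i.2 = q.2 then 1 else 0) * (if j.2 = p.2 then 1 else 0)) +
      β i.1 j.1 * (ep i.2 q.2 * ep j.2 p.2))
  else 0

theorem Tor_CF (a : Fin 3 → ℝ) (β γ : Fin 3 → Fin 3 → ℝ) (hβ : ∀ P Q, β P Q = β Q P)
    (hγ : ∀ P Q, γ P Q = γ Q P) (i j p q : Fin 3 × Bool) :
    Tor a ![β 1 2, β 0 2, β 0 1] ![γ 1 2, γ 0 2, γ 0 1] i j p q = CF a β γ i j p q := by
  obtain ⟨P, s⟩ := i
  obtain ⟨Q, t⟩ := j
  obtain ⟨R, u⟩ := p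
  obtain ⟨S, v⟩ := q
  have b1 := hβ 1 0
  have b2 := hβ 2 0
  have b3 := hβ 2 1
  have c1 := hγ 1 0
  have c2 := hγ 2 0
  have c3 := hγ 2 1
  simp only [Tor, pS, pK, om_eq, un_eq, CF, Fin.sum_univ_three, Matrix.cons_val]
  fin_cases P <;> fin_cases Q <;> fin_cases R <;> fin_cases S <;>
    simp [b1, b2, b3, c1, c2, c3] <;> ring

theorem odd_dec : ∀ P Q R S : Fin 3, P ≠ Q → ¬ (P = R ∧ Q = S) → ¬ (P = S ∧ Q = R) →
    ∃ k : Fin 3, ((if P = k then (-1 : ℤ) else 1) * (if Q = k then -1 else 1) *
      (if R = k then -1 else 1) * (if S = k then -1 else 1)) = -1 := by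
  decide

theorem QI.K_CF {K : T4 3} (h : QI K) (i j p q : Fin 3 × Bool) : K i j p q =
    CF (fun P => K (P, false) (P, true) (P, false) (P, true))
      (fun P Q => K (P, false) (Q, false) (P, true) (Q, true))
      (fun P Q => K (P, false) (Q, false) (P, false) (Q, false)) i j p q := by
  obtain ⟨P, s⟩ := i
  obtain ⟨Q, t⟩ := j
  obtain ⟨R, u⟩ := p
  obtain ⟨S, v⟩ := q
  simp only [CF]
  by_cases h1 : P = Q
  · subst h1
    rw [if_pos rfl]
    by_cases h2 : R = S
    · subst h2
      rw [if_pos rfl]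
      by_cases h3 : P = R
      · subst h3
        rw [if_pos rfl, h.ep_first, h.ep_second]
        ring
      · rw [if_neg h3, h.ep_first, h.ep_second, h.planes h3]
        ring
    · rw [if_neg h2]
      refine h.odd s t u v ?_
      by_cases h3 : P = R
      · refine ⟨S, ?_⟩
        have h4 : ¬ P = S := fun h4 => h2 (h3.symm.trans h4)
        simp [h4, h2]
      · refine ⟨R, ?_⟩
        have h4 : ¬ S = R := fun h4 => h2 h4.symm
        simp [h3, h4]
  · rw [if_neg h1]
    by_cases h2 : P = R ∧ Q = S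
    · rw [if_pos h2]
      obtain ⟨rfl, rfl⟩ := h2
      exact h.mixed h1 s t u v
    · rw [if_neg h2]
      by_cases h3 : P = S ∧ Q = R
      · rw [if_pos h3]
        obtain ⟨rfl, rfl⟩ := h3
        rw [h.anti', h.mixed h1 s t v u]
      · rw [if_neg h3]
        refine h.odd s t u v ?_
        obtain ⟨k, hk⟩ := odd_dec P Q R S h1 h2 h3
        refine ⟨k, ?_⟩
        have := congrArg (Int.cast : ℤ → ℝ) hk
        push_cast at this
        exact this

theorem QI.sym_b {K : T4 3} (h : QI K) (P Q : Fin 3) :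
    K (P, false) (Q, false) (P, true) (Q, true) = K (Q, false) (P, false) (Q, true) (P, true) := by
  rw [h.anti, h.anti' (Q, false)]
  ring

theorem QI.sym_c {K : T4 3} (h : QI K) (P Q : Fin 3) :
    K (P, false) (Q, false) (P, false) (Q, false) =
      K (Q, false) (P, false) (Q, false) (P, false) := by
  rw [h.anti, h.anti' (Q, false)]
  ring

/-- the invariant tensors are the torus invariant tensors -/
theorem QI.eq_Tor {K : T4 3} (h : QI K) : K =
    Tor (fun P => K (P, false) (P, true) (P, false) (P, true))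
      ![K (1, false) (2, false) (1, true) (2, true), K (0, false) (2, false) (0, true) (2, true),
        K (0, false) (1, false) (0, true) (1, true)]
      ![K (1, false) (2, false) (1, false) (2, false), K (0, false) (2, false) (0, false) (2, false),
        K (0, false) (1, false) (0, false) (1, false)] := by
  funext i j p q
  rw [h.K_CF i j p q]
  exact (Tor_CF (fun P => K (P, false) (P, true) (P, false) (P, true))
    (fun P Q => K (P, false) (Q, false) (P, true) (Q, true))
    (fun P Q => K (P, false) (Q, false) (P, false) (Q, false)) h.sym_b h.sym_c i j p q).symm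

end Pool.Agent.Helper147.HT
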