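import Pool.Agent.Helper147.HT.T5
import Pool.Agent.Helper147.HM.W7

/-!
# The inequality, and the Gauss-Bonnet-Chern integrand
-/

set_option autoImplicit false

namespace Pool.Agent.Helper147.HT

open Pool.Agent.W666.GB Pool.Agent.W669.HD Pool.Agent.Y195.HF

theorem sqrt_bound {A B c : ℝ} (hA : 0 ≤ A) (hB : 0 ≤ B)
    (h : ∀ s t : ℝ, 0 ≤ s → 0 ≤ t → 0 ≤ A * s ^ 2 + B * t ^ 2 + 2 * c * (s * t)) :
    0 ≤ c + √A * √B := by
  by_contra hc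
  push Not at hc
  set p := √A with hp
  set q := √B with hq
  have hp0 : 0 ≤ p := Real.sqrt_nonneg _
  have hq0 : 0 ≤ q := Real.sqrt_nonneg _
  have hpA : p ^ 2 = A := Real.sq_sqrt hA
  have hqB : q ^ 2 = B := Real.sq_sqrt hB
  obtain ⟨κ, hκ⟩ : ∃ κ, κ = -(c + p * q) := ⟨_, rfl⟩
  have hκ0 : 0 < κ := by linarith
  obtain ⟨η, hη⟩ : ∃ η, η = κ / (p + q + 1) := ⟨_, rfl⟩
  have hη0 : 0 < η := by rw [hη]; positivity
  have hη1 : η * (p + q + 1) = κ := by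
    rw [hη]
    field_simp
  have h1 := h (q + η) (p + η) (by linarith) (by linarith)
  rw [← hpA, ← hqB] at h1
  have hcc : c = -κ - p * q := by linarith
  rw [hcc] at h1
  have h2 : p ^ 2 * (q + η) ^ 2 + q ^ 2 * (p + η) ^ 2 + 2 * (-κ - p * q) * ((q + η) * (p + η)) =
      η * (η * (p - q) ^ 2 - 2 * κ * (p + q) - 2 * κ * η) - 2 * κ * (p * q) := by ring
  rw [h2] at h1
  have h3 : η * (p - q) ^ 2 ≤ κ * (p + q) := by
    have h4 : (p - q) ^ 2 ≤ (p + q + 1) * (p + q) := by nlinarith [mul_nonneg hp0 hq0]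
    calc η * (p - q) ^ 2 ≤ η * ((p + q + 1) * (p + q)) := mul_le_mul_of_nonneg_left h4 hη0.le
      _ = κ * (p + q) := by rw [← hη1]; ring
  have h5 : 0 ≤ κ * (p + q) := by positivity
  have h6 : 0 < κ * η := by positivity
  have h7 : η * (η * (p - q) ^ 2 - 2 * κ * (p + q) - 2 * κ * η) < 0 :=
    mul_neg_of_pos_of_neg hη0 (by linarith)
  have h8 : 0 ≤ κ * (p * q) := by positivity
  linarith

theorem FF_nonneg {A b c : Fin 3 → ℝ} (hA : ∀ k, 0 ≤ A k) (hc : ∀ k, 0 ≤ c k)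
    (h0 : 3 * |b 0| ≤ c 0 + √(A 1) * √(A 2)) (h1 : 3 * |b 1| ≤ c 1 + √(A 0) * √(A 2))
    (h2 : 3 * |b 2| ≤ c 2 + √(A 0) * √(A 1)) : 0 ≤ FF A b c := by
  obtain ⟨x, hx⟩ : ∃ x, x = √(A 0) := ⟨_, rfl⟩
  obtain ⟨y, hy⟩ : ∃ y, y = √(A 1) := ⟨_, rfl⟩
  obtain ⟨z, hz⟩ : ∃ z, z = √(A 2) := ⟨_, rfl⟩
  have hx0 : 0 ≤ x := by rw [hx]; exact Real.sqrt_nonneg _
  have hy0 : 0 ≤ y := by rw [hy]; exact Real.sqrt_nonneg _
  have hz0 : 0 ≤ z := by rw [hz]; exact Real.sqrt_nonneg _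
  have hxA : A 0 = x ^ 2 := by rw [hx, Real.sq_sqrt (hA 0)]
  have hyA : A 1 = y ^ 2 := by rw [hy, Real.sq_sqrt (hA 1)]
  have hzA : A 2 = z ^ 2 := by rw [hz, Real.sq_sqrt (hA 2)]
  rw [← hy, ← hz] at h0
  rw [← hx, ← hz] at h1
  rw [← hx, ← hy] at h2
  obtain ⟨β, hβ⟩ : ∃ β : Fin 3 → ℝ, β = fun k => |b k| := ⟨_, rfl⟩
  have hβ0 : ∀ k, 0 ≤ β k := fun k => by rw [hβ]; exact abs_nonneg _
  have hsq : ∀ k, b k ^ 2 = β k ^ 2 := fun k => by rw [hβ]; simp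
  have h0' : 0 ≤ c 0 + y * z - 3 * β 0 := by rw [hβ]; simpa using h0
  have h1' : 0 ≤ c 1 + x * z - 3 * β 1 := by rw [hβ]; simpa using h1
  have h2' : 0 ≤ c 2 + x * y - 3 * β 2 := by rw [hβ]; simpa using h2
  have hprod : -(β 0 * β 1 * β 2) ≤ b 0 * b 1 * b 2 := by
    rw [hβ]
    simp only
    rw [← abs_mul, ← abs_mul]
    exact neg_abs_le _
  have hid : x ^ 2 * y ^ 2 * z ^ 2 + 2 * (x ^ 2 * (c 0 ^ 2 + 3 * β 0 ^ 2) +
      y ^ 2 * (c 1 ^ 2 + 3 * β 1 ^ 2) + z ^ 2 * (c 2 ^ 2 + 3 * β 2 ^ 2)) +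
      8 * (c 0 * c 1 * c 2 + 3 * -(β 0 * β 1 * β 2)) =
      x ^ 2 * y ^ 2 * z ^ 2 + 8 * (β 2 * β 1) * (c 0 + y * z - 3 * β 0) +
      4 * (z * β 2 - y * β 1) ^ 2 + 8 / 3 * (β 2 * c 0) * (c 1 + x * z - 3 * β 1) +
      4 / 3 * (z * β 2 - x * c 0) ^ 2 + 8 / 9 * (c 1 * c 0) * (c 2 + x * y - 3 * β 2) +
      4 / 9 * (y * c 1 - x * c 0) ^ 2 + 2 / 3 * (z ^ 2 * β 2 ^ 2) + 2 * (y ^ 2 * β 1 ^ 2) +
      6 * (x ^ 2 * β 0 ^ 2) + 2 / 9 * (x ^ 2 * c 0 ^ 2) + 14 / 9 * (y ^ 2 * c 1 ^ 2) +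
      2 * (z ^ 2 * c 2 ^ 2) + 64 / 9 * (c 0 * c 1 * c 2) := by ring
  have c0 := hc 0
  have c1 := hc 1
  have c2 := hc 2
  have b0 := hβ0 0
  have b1 := hβ0 1
  have b2 := hβ0 2
  have hpos : 0 ≤ x ^ 2 * y ^ 2 * z ^ 2 + 8 * (β 2 * β 1) * (c 0 + y * z - 3 * β 0) +
      4 * (z * β 2 - y * β 1) ^ 2 + 8 / 3 * (β 2 * c 0) * (c 1 + x * z - 3 * β 1) +
      4 / 3 * (z * β 2 - x * c 0) ^ 2 + 8 / 9 * (c 1 * c 0) * (c 2 + x * y - 3 * β 2) +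
      4 / 9 * (y * c 1 - x * c 0) ^ 2 + 2 / 3 * (z ^ 2 * β 2 ^ 2) + 2 * (y ^ 2 * β 1 ^ 2) +
      6 * (x ^ 2 * β 0 ^ 2) + 2 / 9 * (x ^ 2 * c 0 ^ 2) + 14 / 9 * (y ^ 2 * c 1 ^ 2) +
      2 * (z ^ 2 * c 2 ^ 2) + 64 / 9 * (c 0 * c 1 * c 2) := by positivity
  unfold FF
  rw [hxA, hyA, hzA, hsq, hsq, hsq]
  linarith

theorem FF_shift {A b c : Fin 3 → ℝ} {δ : ℝ} (hδ : 0 ≤ δ) (hA : ∀ k, 0 ≤ A k)
    (hc : ∀ k, 0 ≤ c k) (h : 0 ≤ FF A b c) :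
    15 * δ ^ 3 ≤ FF (fun k => A k + δ) b (fun k => c k + δ) := by
  have hid : FF (fun k => A k + δ) b (fun k => c k + δ) = FF A b c + 15 * δ ^ 3 +
      (δ * (A 0 * A 1 + A 0 * A 2 + A 1 * A 2) + δ ^ 2 * (A 0 + A 1 + A 2) +
      2 * (A 0 * (2 * c 0 * δ + δ ^ 2) + δ * (c 0 ^ 2 + 2 * c 0 * δ + 3 * b 0 ^ 2) +
        (A 1 * (2 * c 1 * δ + δ ^ 2) + δ * (c 1 ^ 2 + 2 * c 1 * δ + 3 * b 1 ^ 2)) +
        (A 2 * (2 * c 2 * δ + δ ^ 2) + δ * (c 2 ^ 2 + 2 * c 2 * δ + 3 * b 2 ^ 2))) +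
      8 * (δ * (c 0 * c 1 + c 0 * c 2 + c 1 * c 2) + δ ^ 2 * (c 0 + c 1 + c 2))) := by
    unfold FF
    ring
  have a0 := hA 0
  have a1 := hA 1
  have a2 := hA 2
  have c0 := hc 0
  have c1 := hc 1
  have c2 := hc 2
  have hp : 0 ≤ (δ * (A 0 * A 1 + A 0 * A 2 + A 1 * A 2) + δ ^ 2 * (A 0 + A 1 + A 2) +
      2 * (A 0 * (2 * c 0 * δ + δ ^ 2) + δ * (c 0 ^ 2 + 2 * c 0 * δ + 3 * b 0 ^ 2) +
        (A 1 * (2 * c 1 * δ + δ ^ 2) + δ * (c 1 ^ 2 + 2 * c 1 * δ + 3 * b 1 ^ 2)) +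
        (A 2 * (2 * c 2 * δ + δ ^ 2) + δ * (c 2 ^ 2 + 2 * c 2 * δ + 3 * b 2 ^ 2))) +
      8 * (δ * (c 0 * c 1 + c 0 * c 2 + c 1 * c 2) + δ ^ 2 * (c 0 + c 1 + c 2))) := by positivity
  rw [hid]
  linarith

section vec

variable {V : Type} [NormedAddCommGroup V] [InnerProductSpace ℝ V]

theorem l1 {S : V → V → V → V → ℝ} (hS : AlgCurv S) (a b : ℝ) (u v y z w : V) :
    S (a • u + b • v) y z w = a * S u y z w + b * S v y z w := by
  rw [hS.add, hS.smul, hS.smul]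

theorem l2 {S : V → V → V → V → ℝ} (hS : AlgCurv S) (a b : ℝ) (x u v z w : V) :
    S x (a • u + b • v) z w = a * S x u z w + b * S x v z w := by
  rw [hS.anti (a • u + b • v) x, l1 hS, hS.anti x u, hS.anti x v]
  ring

theorem l3 {S : V → V → V → V → ℝ} (hS : AlgCurv S) (a b : ℝ) (x y u v w : V) :
    S x y (a • u + b • v) w = a * S x y u w + b * S x y v w := by
  rw [← hS.pair x y (a • u + b • v) w, l1 hS, hS.pair x y u w, hS.pair x y v w]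

theorem l4 {S : V → V → V → V → ℝ} (hS : AlgCurv S) (a b : ℝ) (x y z u v : V) :
    S x y z (a • u + b • v) = a * S x y z u + b * S x y z v := by
  rw [← hS.pair x y z (a • u + b • v), l2 hS, hS.pair x y z u, hS.pair x y z v]

theorem s1 {S : V → V → V → V → ℝ} (hS : AlgCurv S) (a b c d : ℝ) (x y z w : V) :
    S (a • x) (b • y) (c • z) (d • w) = a * b * c * d * S x y z w := by
  have e1 := l1 hS a 0 x 0 (b • y) (c • z) (d • w)
  have e2 := l2 hS b 0 x y 0 (c • z) (d • w)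
  have e3 := l3 hS c 0 x y z 0 (d • w)
  have e4 := l4 hS d 0 x y z w 0
  simp only [zero_smul, add_zero, zero_mul] at e1 e2 e3 e4
  rw [e1, e2, e3, e4]
  ring

/-- `R` is invariant under the quarter turn of each of the three coordinate planes of `e`: the linear
map with `e (k, false) ↦ e (k, true)`, `e (k, true) ↦ - e (k, false)` which fixes the other two
planes. -/
def QuarterInv (e : OrthonormalBasis (Fin 3 × Bool) ℝ V) (R : V → V → V → V → ℝ) : Prop :=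
  ∀ (k : Fin 3) (J : V →ₗ[ℝ] V), J (e (k, false)) = e (k, true) →
    J (e (k, true)) = - e (k, false) → (∀ l s, l ≠ k → J (e (l, s)) = e (l, s)) →
      ∀ x y z w, R (J x) (J y) (J z) (J w) = R x y z w

/-- The sectional curvatures of `R` on the sum of any two of the three planes of `e` are at most
`-δ`. -/
def SecFour (e : OrthonormalBasis (Fin 3 × Bool) ℝ V) (δ : ℝ) (R : V → V → V → V → ℝ) : Prop :=
  ∀ (k : Fin 3) (x y : V), (∀ s, inner ℝ (e (k, s)) x = 0) → (∀ s, inner ℝ (e (k, s)) y = 0) →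
    R x y x y ≤ -δ * (‖x‖ ^ 2 * ‖y‖ ^ 2 - inner ℝ x y ^ 2)

theorem qi_cp {e : OrthonormalBasis (Fin 3 × Bool) ℝ V} {R : V → V → V → V → ℝ}
    (hR : AlgCurv R) (h : QuarterInv e R) : QI (cp e R) where
  anti i j p q := by simp only [cp]; rw [hR.anti]
  pair i j p q := by simp only [cp]; rw [hR.pair]
  bia i j p q := hR.bianchi _ _ _ _
  turn k i j p q := by
    obtain ⟨J, hJ⟩ : ∃ J : V →ₗ[ℝ] V, ∀ i, J (e i) = sg k i • e (tn k i) := by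
      refine ⟨e.toBasis.constr ℝ (fun i => sg k i • e (tn k i)), fun i => ?_⟩
      have := e.toBasis.constr_basis ℝ (fun i => sg k i • e (tn k i)) i
      rwa [OrthonormalBasis.coe_toBasis] at this
    have h1 := h k J (by rw [hJ]; simp [sg, tn]) (by rw [hJ]; simp [sg, tn])
      (fun l s hl => by rw [hJ]; simp [sg, tn, hl]) (e i) (e j) (e p) (e q)
    rw [hJ, hJ, hJ, hJ, s1 hR] at h1
    exact h1

theorem sec_val {e : OrthonormalBasis (Fin 3 × Bool) ℝ V} {S : V → V → V → V → ℝ}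
    (hS : AlgCurv S) (h : QI (cp e S)) {l j : Fin 3} (hlj : l ≠ j) (α β ε : ℝ) :
    S (α • e (l, false) + β • e (j, false)) (α • e (l, true) + (ε * β) • e (j, true))
      (α • e (l, false) + β • e (j, false)) (α • e (l, true) + (ε * β) • e (j, true)) =
    cp e S (l, false) (l, true) (l, false) (l, true) * α ^ 4 +
      cp e S (j, false) (j, true) (j, false) (j, true) * (ε ^ 2 * β ^ 4) +
      ((1 + ε ^ 2) * cp e S (l, false) (j, false) (l, false) (j, false) +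
        6 * ε * cp e S (l, false) (j, false) (l, true) (j, true)) * (α ^ 2 * β ^ 2) := by
  have key : ∀ a b c d, S (e a) (e b) (e c) (e d) = _ := fun a b c d => h.K_CF a b c d
  have hjl := hlj.symm
  have sb := h.sym_b j l
  have sc := h.sym_c j l
  rw [l1 hS]
  simp only [l2 hS]
  simp only [l3 hS]
  simp only [l4 hS]
  simp only [key, CF, hlj, hjl, ep, reduceCtorEq, if_true, if_false, and_self, and_true, true_and,
    false_and, and_false, sb, sc]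
  ring

end vec

end Pool.Agent.Helper147.HT
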