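import Pool.Agent.Helper147.HT.T6

/-!
# The Hopf sign in dimension six for tensors with three quarter turns
-/

set_option autoImplicit false

namespace Pool.Agent.Helper147.HT

open Pool.Agent.W666.GB Pool.Agent.W669.HD Pool.Agent.Y195.HF

section vec

variable {V : Type} [NormedAddCommGroup V] [InnerProductSpace ℝ V]

theorem inn (e : OrthonormalBasis (Fin 3 × Bool) ℝ V) (i j : Fin 3 × Bool) :
    inner ℝ (e i) (e j) = if i = j then (1 : ℝ) else 0 :=
  orthonormal_iff_ite.mp e.orthonormal i j

theorem inn2 (e : OrthonormalBasis (Fin 3 × Bool) ℝ V) (i j p q : Fin 3 × Bool) (α β γ δ : ℝ) :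
    inner ℝ (α • e i + β • e j) (γ • e p + δ • e q) =
      α * γ * (if i = p then (1 : ℝ) else 0) + α * δ * (if i = q then (1 : ℝ) else 0) +
        β * γ * (if j = p then (1 : ℝ) else 0) + β * δ * (if j = q then (1 : ℝ) else 0) := by
  rw [inner_add_left, inner_add_right, inner_add_right, real_inner_smul_left,
    real_inner_smul_left, real_inner_smul_left, real_inner_smul_left, real_inner_smul_right,
    real_inner_smul_right, real_inner_smul_right, real_inner_smul_right, inn, inn, inn, inn]
  ring

theorem quad {e : OrthonormalBasis (Fin 3 × Bool) ℝ V} {S : V → V → V → V → ℝ}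
    (hS : AlgCurv S) (hQ : QI (cp e S)) {δ : ℝ}
    (hsec : ∀ (k : Fin 3) (x y : V), (∀ s, inner ℝ (e (k, s)) x = 0) →
      (∀ s, inner ℝ (e (k, s)) y = 0) →
        δ * (‖x‖ ^ 2 * ‖y‖ ^ 2 - inner ℝ x y ^ 2) ≤ S x y x y)
    {k l j : Fin 3} (hkl : k ≠ l) (hkj : k ≠ j) (hlj : l ≠ j) :
    0 ≤ cp e S (l, false) (l, true) (l, false) (l, true) - δ ∧
      0 ≤ cp e S (l, false) (j, false) (l, false) (j, false) - δ ∧
      3 * |cp e S (l, false) (j, false) (l, true) (j, true)| ≤
        cp e S (l, false) (j, false) (l, false) (j, false) - δ +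
          √(cp e S (l, false) (l, true) (l, false) (l, true) - δ) *
            √(cp e S (j, false) (j, true) (j, false) (j, true) - δ) := by
  have ha : ∀ l : Fin 3, k ≠ l →
      0 ≤ cp e S (l, false) (l, true) (l, false) (l, true) - δ := by
    intro l hkl
    have h1 := hsec k (e (l, false)) (e (l, true)) (fun s => by rw [inn]; simp [hkl])
      (fun s => by rw [inn]; simp [hkl])
    rw [inn] at h1
    simp only [OrthonormalBasis.norm_eq_one, Prod.mk.injEq, reduceCtorEq, and_false, if_false] at h1
    simp only [cp]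
    linarith
  have hc : 0 ≤ cp e S (l, false) (j, false) (l, false) (j, false) - δ := by
    have h1 := hsec k (e (l, false)) (e (j, false)) (fun s => by rw [inn]; simp [hkl])
      (fun s => by rw [inn]; simp [hkj])
    rw [inn] at h1
    simp only [OrthonormalBasis.norm_eq_one, Prod.mk.injEq, hlj, false_and, if_false] at h1
    simp only [cp]
    linarith
  have hε : ∀ ε : ℝ, ε ^ 2 = 1 →
      0 ≤ (cp e S (l, false) (j, false) (l, false) (j, false) - δ +
        3 * ε * cp e S (l, false) (j, false) (l, true) (j, true)) +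
        √(cp e S (l, false) (l, true) (l, false) (l, true) - δ) *
          √(cp e S (j, false) (j, true) (j, false) (j, true) - δ) := by
    intro ε hε
    refine sqrt_bound (ha l hkl) (ha j hkj) fun s t hs ht => ?_
    obtain ⟨α, hα⟩ : ∃ α, α = √s := ⟨_, rfl⟩
    obtain ⟨β, hβ⟩ : ∃ β, β = √t := ⟨_, rfl⟩
    have hα2 : α ^ 2 = s := by rw [hα, Real.sq_sqrt hs]
    have hβ2 : β ^ 2 = t := by rw [hβ, Real.sq_sqrt ht]
    have hjl := hlj.symm
    have h1 := hsec k (α • e (l, false) + β • e (j, false))
      (α • e (l, true) + (ε * β) • e (j, true))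
      (fun s => by
        rw [inner_add_right, real_inner_smul_right, real_inner_smul_right, inn, inn]
        simp [hkl, hkj])
      (fun s => by
        rw [inner_add_right, real_inner_smul_right, real_inner_smul_right, inn, inn]
        simp [hkl, hkj])
    rw [sec_val hS hQ hlj, ← real_inner_self_eq_norm_sq, ← real_inner_self_eq_norm_sq, inn2, inn2,
      inn2] at h1
    simp only [Prod.mk.injEq, hlj, hjl, reduceCtorEq, and_true, and_false, if_true,
      if_false] at h1
    rw [← hα2, ← hβ2]
    have h2 : ε ^ 2 * β ^ 4 = β ^ 4 := by rw [hε, one_mul]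
    have h3 : ε * β * (ε * β) = β ^ 2 := by
      have : ε * β * (ε * β) = ε ^ 2 * β ^ 2 := by ring
      rw [this, hε, one_mul]
    rw [h2, hε, h3] at h1
    nlinarith [h1]
  refine ⟨ha l hkl, hc, ?_⟩
  have h1 := hε 1 (by norm_num)
  have h2 := hε (-1) (by norm_num)
  have h3 : |cp e S (l, false) (j, false) (l, true) (j, true)| ≤
      (cp e S (l, false) (j, false) (l, false) (j, false) - δ +
          √(cp e S (l, false) (l, true) (l, false) (l, true) - δ) *
            √(cp e S (j, false) (j, true) (j, false) (j, true) - δ)) / 3 := by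
    rw [abs_le]
    constructor <;> linarith
  linarith

/-- the lower bound for the cubic form -/
theorem FF_bound {e : OrthonormalBasis (Fin 3 × Bool) ℝ V} {S : V → V → V → V → ℝ}
    (hS : AlgCurv S) (hQ : QI (cp e S)) {δ : ℝ} (hδ : 0 ≤ δ)
    (hsec : ∀ (k : Fin 3) (x y : V), (∀ s, inner ℝ (e (k, s)) x = 0) →
      (∀ s, inner ℝ (e (k, s)) y = 0) →
        δ * (‖x‖ ^ 2 * ‖y‖ ^ 2 - inner ℝ x y ^ 2) ≤ S x y x y) :
    384 * (15 * δ ^ 3) ≤ gm (fun _ : Fin 3 => cp e S) := by
  obtain ⟨a1, c12, b12⟩ := quad hS hQ hsec (k := 0) (l := 1) (j := 2) (by decide) (by decide)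
    (by decide)
  obtain ⟨a0, c02, b02⟩ := quad hS hQ hsec (k := 1) (l := 0) (j := 2) (by decide) (by decide)
    (by decide)
  obtain ⟨a2, -, -⟩ := quad hS hQ hsec (k := 1) (l := 2) (j := 0) (by decide) (by decide)
    (by decide)
  obtain ⟨-, c01, b01⟩ := quad hS hQ hsec (k := 2) (l := 0) (j := 1) (by decide) (by decide)
    (by decide)
  set K := cp e S with hK
  have hA : ∀ k : Fin 3, 0 ≤ (fun P => K (P, false) (P, true) (P, false) (P, true) - δ) k := by
    intro k
    fin_cases k
    · exact a0
    · exact a1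
    · exact a2
  have hc : ∀ k : Fin 3, 0 ≤ ![K (1, false) (2, false) (1, false) (2, false) - δ,
      K (0, false) (2, false) (0, false) (2, false) - δ,
      K (0, false) (1, false) (0, false) (1, false) - δ] k := by
    intro k
    fin_cases k
    · exact c12
    · exact c02
    · exact c01
  have h1 := FF_nonneg (A := fun P => K (P, false) (P, true) (P, false) (P, true) - δ)
    (b := ![K (1, false) (2, false) (1, true) (2, true), K (0, false) (2, false) (0, true) (2, true),
        K (0, false) (1, false) (0, true) (1, true)])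
    (c := ![K (1, false) (2, false) (1, false) (2, false) - δ,
      K (0, false) (2, false) (0, false) (2, false) - δ,
      K (0, false) (1, false) (0, false) (1, false) - δ]) hA hc b12 b02 b01
  have h2 := FF_shift hδ hA hc h1
  have h3 : (fun k => (fun P => K (P, false) (P, true) (P, false) (P, true) - δ) k + δ) =
      fun P : Fin 3 => K (P, false) (P, true) (P, false) (P, true) := by
    funext k
    simp
  have h4 : (fun k => (![K (1, false) (2, false) (1, false) (2, false) - δ,
      K (0, false) (2, false) (0, false) (2, false) - δ,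
      K (0, false) (1, false) (0, false) (1, false) - δ] : Fin 3 → ℝ) k + δ) =
      ![K (1, false) (2, false) (1, false) (2, false), K (0, false) (2, false) (0, false) (2, false),
        K (0, false) (1, false) (0, false) (1, false)] := by
    funext k
    fin_cases k <;> simp
  rw [h3, h4] at h2
  have h5 := gm_Tor (fun P => K (P, false) (P, true) (P, false) (P, true))
    ![K (1, false) (2, false) (1, true) (2, true), K (0, false) (2, false) (0, true) (2, true),
        K (0, false) (1, false) (0, true) (1, true)]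
    ![K (1, false) (2, false) (1, false) (2, false), K (0, false) (2, false) (0, false) (2, false),
        K (0, false) (1, false) (0, false) (1, false)]
  rw [← hQ.eq_Tor] at h5
  rw [h5]
  linarith

theorem QuarterInv.neg {e : OrthonormalBasis (Fin 3 × Bool) ℝ V} {R : V → V → V → V → ℝ}
    (h : QuarterInv e R) : QuarterInv e (negT R) := by
  intro k J h1 h2 h3 x y z w
  simp only [negT, h k J h1 h2 h3 x y z w]

/-- The pointwise inequality in dimension six. -/
theorem six (e e' : OrthonormalBasis (Fin 3 × Bool) ℝ V) {R : V → V → V → V → ℝ}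
    (hR : AlgCurv R) {δ : ℝ} (hδ : 0 ≤ δ) (hI : QuarterInv e R) (hs : SecFour e δ R) :
    roundGB 3 δ ≤ (-1) ^ 3 * gbc e' R := by
  rw [Pool.Agent.W688.HD.bas 3 V e' e R hR, gbc_eq]
  have hπ := Real.pi_pos
  have hc : 0 < 1 / ((8 * Real.pi) ^ 3 * ((3 : ℕ).factorial : ℝ)) := by positivity
  have hr : roundGB 3 δ = 1 / ((8 * Real.pi) ^ 3 * ((3 : ℕ).factorial : ℝ)) *
      (384 * (15 * δ ^ 3)) := by
    unfold roundGB
    have : (8 * Real.pi) ^ 3 = 2 ^ 3 * (4 * Real.pi) ^ 3 := by
      rw [← mul_pow]; congr 1; ring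
    rw [this]
    have h6 : ((2 * 3 : ℕ).factorial : ℝ) = 720 := by norm_num [Nat.factorial]
    rw [h6]
    field_simp
    ring
  rw [hr]
  refine mul_le_mul_of_nonneg_left ?_ hc.le
  refine FF_bound (Pool.Agent.Y195.HF.neg_curv hR) (qi_cp (Pool.Agent.Y195.HF.neg_curv hR) hI.neg)
    hδ fun k x y hx hy => ?_
  have := hs k x y hx hy
  simp only [negT]
  linarith

end vec

end Pool.Agent.Helper147.HT
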