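import Pool.Agent.Helper147.HT.T7

/-!
# The positive form, fields of curvature tensors, and an example
-/

set_option autoImplicit false

namespace Pool.Agent.Helper147.HT

open Pool.Agent.W666.GB Pool.Agent.W669.HD Pool.Agent.Y195.HF

section vec

variable {V : Type} [NormedAddCommGroup V] [InnerProductSpace ℝ V]

/-- The sectional curvatures of `R` on the sum of any two of the three planes of `e` are at least
`δ`. -/
def SecFourPos (e : OrthonormalBasis (Fin 3 × Bool) ℝ V) (δ : ℝ) (R : V → V → V → V → ℝ) : Prop :=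
  ∀ (k : Fin 3) (x y : V), (∀ s, inner ℝ (e (k, s)) x = 0) → (∀ s, inner ℝ (e (k, s)) y = 0) →
    δ * (‖x‖ ^ 2 * ‖y‖ ^ 2 - inner ℝ x y ^ 2) ≤ R x y x y

theorem six_pos (e e' : OrthonormalBasis (Fin 3 × Bool) ℝ V) {R : V → V → V → V → ℝ}
    (hR : AlgCurv R) {δ : ℝ} (hδ : 0 ≤ δ) (hI : QuarterInv e R) (hs : SecFourPos e δ R) :
    roundGB 3 δ ≤ gbc e' R := by
  rw [← gbc_neg e' R]
  refine six e e' (Pool.Agent.Y195.HF.neg_curv hR) hδ hI.neg fun k x y hx hy => ?_
  have := hs k x y hx hy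
  simp only [negT]
  linarith

end vec

section fields

variable {M : Type} [MeasurableSpace M] (μ : MeasureTheory.Measure M) (K : CurvField 3 M)

theorem field_neg (hμ : MeasureTheory.IsFiniteMeasure μ) {δ : ℝ}
    (hi : MeasureTheory.Integrable K.gb μ) (hδ : 0 ≤ δ)
    (h : ∀ p, ∃ e : OrthonormalBasis (Fin 3 × Bool) ℝ (K.V p),
      QuarterInv e (K.R p) ∧ SecFour e δ (K.R p)) :
    roundGB 3 δ * μ.real Set.univ ≤ (-1) ^ 3 * ∫ p, K.gb p ∂μ := by
  rw [← MeasureTheory.integral_const_mul]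
  have h1 : roundGB 3 δ * μ.real Set.univ = ∫ _, roundGB 3 δ ∂μ := by
    rw [MeasureTheory.integral_const, smul_eq_mul, mul_comm]
  rw [h1]
  refine MeasureTheory.integral_mono (MeasureTheory.integrable_const _) (hi.const_mul _) fun p => ?_
  obtain ⟨e, h2, h3⟩ := h p
  exact six e (K.e p) (K.curv p) hδ h2 h3

theorem field_pos (hμ : MeasureTheory.IsFiniteMeasure μ) {δ : ℝ}
    (hi : MeasureTheory.Integrable K.gb μ) (hδ : 0 ≤ δ)
    (h : ∀ p, ∃ e : OrthonormalBasis (Fin 3 × Bool) ℝ (K.V p),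
      QuarterInv e (K.R p) ∧ SecFourPos e δ (K.R p)) :
    roundGB 3 δ * μ.real Set.univ ≤ ∫ p, K.gb p ∂μ := by
  have h1 : roundGB 3 δ * μ.real Set.univ = ∫ _, roundGB 3 δ ∂μ := by
    rw [MeasureTheory.integral_const, smul_eq_mul, mul_comm]
  rw [h1]
  refine MeasureTheory.integral_mono (MeasureTheory.integrable_const _) hi fun p => ?_
  obtain ⟨e, h2, h3⟩ := h p
  exact six_pos e (K.e p) (K.curv p) hδ h2 h3

end fields

section example'

abbrev X6 := EuclideanSpace ℝ (Fin 3 × Bool)

/-- the area form of the plane `k` -/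
def ar (k : Fin 3) (x y : X6) : ℝ := x (k, false) * y (k, true) - x (k, true) * y (k, false)

theorem ar_skew (k : Fin 3) : SkewForm (ar k) where
  add x x' y := by simp only [ar, PiLp.add_apply]; ring
  smul t x y := by simp only [ar, PiLp.smul_apply, smul_eq_mul]; ring
  anti x y := by simp only [ar]; ring

/-- the sum of the area forms -/
def ars (x y : X6) : ℝ := ar 0 x y + ar 1 x y + ar 2 x y

theorem ars_skew : SkewForm ars where
  add x x' y := by simp only [ars, (ar_skew _).add]; ring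
  smul t x y := by simp only [ars, (ar_skew _).smul]; ring
  anti x y := by simp only [ars]; rw [(ar_skew 0).anti, (ar_skew 1).anti, (ar_skew 2).anti]; ring

/-- the example -/
noncomputable def R0 (x y z w : X6) : ℝ := 1 / 3 * skewCurv ars x y z w +
  (-2 / 3 * skewCurv (ar 0) x y z w + (-2 / 3 * skewCurv (ar 1) x y z w +
    -2 / 3 * skewCurv (ar 2) x y z w))

theorem R0_curv : AlgCurv R0 :=
  add_curv (Pool.Agent.R770.NS.smul_curv ars_skew.curv (1 / 3))
    (add_curv (Pool.Agent.R770.NS.smul_curv (ar_skew 0).curv (-2 / 3))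
      (add_curv (Pool.Agent.R770.NS.smul_curv (ar_skew 1).curv (-2 / 3))
        (Pool.Agent.R770.NS.smul_curv (ar_skew 2).curv (-2 / 3))))

noncomputable def e6 : OrthonormalBasis (Fin 3 × Bool) ℝ X6 := EuclideanSpace.basisFun _ ℝ

theorem e6_inner (i : Fin 3 × Bool) (x : X6) : inner ℝ (e6 i) x = x i := by
  simp [e6, EuclideanSpace.basisFun_apply, EuclideanSpace.inner_single_left]

theorem ar_J {k : Fin 3} {J : X6 →ₗ[ℝ] X6} (h1 : J (e6 (k, false)) = e6 (k, true))
    (h2 : J (e6 (k, true)) = - e6 (k, false))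
    (h3 : ∀ l s, l ≠ k → J (e6 (l, s)) = e6 (l, s)) (l : Fin 3) (x y : X6) :
    ar l (J x) (J y) = ar l x y := by
  have hJ : ∀ i, J (e6 i) = sg k i • e6 (tn k i) := by
    rintro ⟨l, s⟩
    by_cases hl : l = k
    · subst hl
      cases s
      · simp [sg, tn, h1]
      · simp [sg, tn, h2]
    · rw [h3 l s hl]
      simp [sg, tn, hl]
  have hx : ∀ (x : X6) (i : Fin 3 × Bool), (J x) i =
      ∑ j, x j * (sg k j * (if tn k j = i then 1 else 0)) := by
    intro x i
    have e1 : x = ∑ j, x j • e6 j := by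
      conv_lhs => rw [← e6.sum_repr' x]
      refine Finset.sum_congr rfl fun j _ => ?_
      rw [e6_inner]
    rw [← e6_inner i (J x)]
    conv_lhs => rw [e1]
    rw [map_sum, inner_sum]
    refine Finset.sum_congr rfl fun j _ => ?_
    rw [map_smul, hJ, real_inner_smul_right, real_inner_smul_right,
      orthonormal_iff_ite.mp e6.orthonormal i (tn k j)]
    simp only [eq_comm]
  simp only [ar, hx]
  simp only [Fintype.sum_prod_type, Fin.sum_univ_three, Fintype.sum_bool, sg, tn]
  fin_cases k <;> fin_cases l <;> simp <;> ring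

theorem R0_inv : QuarterInv e6 R0 := by
  intro k J h1 h2 h3 x y z w
  simp only [R0, skewCurv, ars, ar_J h1 h2 h3]

theorem R0_sec : SecFour e6 0 R0 := by
  intro k x y hx hy
  have e1 : ar k x y = 0 := by
    have a1 := hx false
    have a2 := hx true
    rw [e6_inner] at a1 a2
    simp only [ar, a1, a2]
    ring
  have e2 : R0 x y x y = ars x y ^ 2 - 2 * (ar 0 x y ^ 2 + ar 1 x y ^ 2 + ar 2 x y ^ 2) := by
    have s1 : ∀ x : X6, ars x x = 0 := fun x => by simp only [ars, ar]; ring
    have s2 : ∀ (k : Fin 3) (x : X6), ar k x x = 0 := fun k x => by simp only [ar]; ring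
    simp only [R0, skewCurv, s1, s2]
    rw [ars_skew.anti x y, (ar_skew 0).anti x y, (ar_skew 1).anti x y, (ar_skew 2).anti x y]
    ring
  rw [e2]
  simp only [ars]
  fin_cases k
  · simp only [Fin.zero_eta] at e1
    rw [e1]
    nlinarith [sq_nonneg (ar 1 x y - ar 2 x y)]
  · simp only [Fin.mk_one] at e1
    rw [e1]
    nlinarith [sq_nonneg (ar 0 x y - ar 2 x y)]
  · simp only [Fin.reduceFinMk] at e1
    rw [e1]
    nlinarith [sq_nonneg (ar 0 x y - ar 1 x y)]

theorem R0_pos : ∃ x y : X6, 0 < R0 x y x y := by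
  refine ⟨(WithLp.toLp 2 fun i => if i.2 = false then 1 else 0),
    (WithLp.toLp 2 fun i => if i.2 = true then 1 else 0), ?_⟩
  simp only [R0, skewCurv, ars, ar]
  norm_num

/-- The hypothesis of the theorem does not imply nonpositive sectional curvature. -/
theorem ex_pos : ∃ (e : OrthonormalBasis (Fin 3 × Bool) ℝ X6) (R : X6 → X6 → X6 → X6 → ℝ),
    AlgCurv R ∧ QuarterInv e R ∧ SecFour e 0 R ∧ ∃ x y, 0 < R x y x y :=
  ⟨e6, R0, R0_curv, R0_inv, R0_sec, R0_pos⟩

end example'

end Pool.Agent.Helper147.HT
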