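import Pool.Agent.Helper147.HT.T8
import Pool.Agent.Y519.HB.Last

/-!
# Orthogonal sums of blocks in all even dimensions
-/

set_option autoImplicit false

namespace Pool.Agent.Helper147.HT

open Pool.Agent.W666.GB Pool.Agent.W669.HD Pool.Agent.Y519.HB

variable {V : Type} [NormedAddCommGroup V] [InnerProductSpace ℝ V]

/-- An algebraic curvature tensor of nonpositive sectional curvature which lives on `U`, where `U`
has dimension at most five, or `U` has dimension six and the tensor is invariant under the quarter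
turns of three pairwise orthogonal planes of `U`. -/
def TurnBlock (U : Submodule ℝ V) (S : V → V → V → V → ℝ) : Prop :=
  AlgCurv S ∧ LivesOn U S ∧ (∀ a b, S a b a b ≤ 0) ∧
    (Module.finrank ℝ U ≤ 5 ∨ ∃ e : OrthonormalBasis (Fin 3 × Bool) ℝ U,
      QuarterInv e (fun x y z w : U => S x y z w))

/-- Blocks of this type, minus squares `(x ∧ y)²` with `x` in one block and `y` in one block, minus
`δ` times the unit tensor. -/
def TurnBlocks (δ : ℝ) (R : V → V → V → V → ℝ) : Prop :=
  ∃ (r : ℕ) (U : Fin r → Submodule ℝ V) (S : Fin r → V → V → V → V → ℝ) (n : ℕ)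
    (x y : Fin n → V) (p q : Fin n → Fin r), OrthSum U ∧ (∀ i, TurnBlock (U i) (S i)) ∧
    (∀ k, x k ∈ U (p k)) ∧ (∀ k, y k ∈ U (q k)) ∧
    ∀ a b c d, R a b c d = (∑ i, S i a b c d) - (∑ k, sqDec (x k) (y k) a b c d) -
      δ * unitT a b c d

theorem TurnBlock.hopf [FiniteDimensional ℝ V] {U : Submodule ℝ V} {S : V → V → V → V → ℝ}
    (h : TurnBlock U S) : HopfOn U S := by
  obtain ⟨hS, hL, hs, hd⟩ := h
  have small : ∀ (k : ℕ) (E : Submodule ℝ V), Module.finrank ℝ E ≤ 5 →
      ∀ e : OrthonormalBasis (Fin k × Bool) ℝ E,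
        0 ≤ (-1) ^ k * gbc e (fun x y z w : E => S x y z w) := by
    intro k E hE5 ε
    have hE : Module.finrank ℝ (⊤ : Submodule ℝ E) ≤ 5 := by
      rwa [finrank_top]
    have h2 : TwoFive 0 (fun x y z w : E => S x y z w) := by
      refine twoFive_one (restrict_curv hS E) hE ?_ (fun x y => hs x y)
      intro a ha y z w
      rw [Submodule.top_orthogonal_eq_bot, Submodule.mem_bot] at ha
      rw [ha]
      have := hS.smul 0 0 (y : V) (z : V) (w : V)
      simpa using this
    exact (roundGB_nonneg le_rfl).trans (two_five ε le_rfl h2)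
  intro k E hEU e
  rcases hd with hd | ⟨e₀, hI⟩
  · exact small k E ((Submodule.finrank_mono hEU).trans hd) e
  · have hU : Module.finrank ℝ U = 6 := by
      rw [Module.finrank_eq_card_basis e₀.toBasis]
      simp
    have hE : Module.finrank ℝ E = k * 2 := by
      rw [Module.finrank_eq_card_basis e.toBasis]
      simp
    by_cases hk : k ≤ 2
    · exact small k E (by omega) e
    · have hle := Submodule.finrank_mono hEU
      have hk3 : k = 3 := by omega
      have hEq : E = U := Submodule.eq_of_le_of_finrank_eq hEU (by omega)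
      subst hk3
      subst hEq
      refine (roundGB_nonneg le_rfl).trans (six e₀ e (restrict_curv hS E) le_rfl hI ?_)
      intro k x y _ _
      have := hs (x : V) (y : V)
      simpa using this

theorem TurnBlocks.hopf [FiniteDimensional ℝ V] {δ : ℝ} {R : V → V → V → V → ℝ}
    (h : TurnBlocks δ R) : HopfBlocks δ R := by
  obtain ⟨r, U, S, n, x, y, p, q, hO, hS, hx, hy, hR⟩ := h
  exact ⟨r, U, S, n, x, y, p, q, hO, fun i => (hS i).1, fun i => (hS i).2.1,
    fun i => (hS i).hopf, hx, hy, hR⟩

theorem blocks_bound {m : ℕ} (e : OrthonormalBasis (Fin m × Bool) ℝ V) {δ : ℝ} (hδ : 0 ≤ δ)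
    {R : V → V → V → V → ℝ} (h : TurnBlocks δ R) : roundGB m δ ≤ (-1) ^ m * gbc e R := by
  have hfin : FiniteDimensional ℝ V := Module.Finite.of_basis e.toBasis
  exact cls_bound e hδ (Or.inl h.hopf)

section fields

variable {M : Type} [MeasurableSpace M] (μ : MeasureTheory.Measure M)

theorem field_blocks {m : ℕ} (K : CurvField m M) (h : ∀ p, TurnBlocks 0 (K.R p)) :
    0 ≤ (-1) ^ m * ∫ p, K.gb p ∂μ := by
  rw [← MeasureTheory.integral_const_mul]
  refine MeasureTheory.integral_nonneg fun p => ?_
  exact (roundGB_nonneg le_rfl).trans (blocks_bound (K.e p) le_rfl (h p))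

theorem field_blocks' {m : ℕ} (K : CurvField m M) [MeasureTheory.IsFiniteMeasure μ]
    (hi : MeasureTheory.Integrable K.gb μ) {δ : ℝ} (hδ : 0 ≤ δ)
    (h : ∀ p, TurnBlocks δ (K.R p)) :
    roundGB m δ * μ.real Set.univ ≤ (-1) ^ m * ∫ p, K.gb p ∂μ := by
  rw [← MeasureTheory.integral_const_mul]
  have h1 : roundGB m δ * μ.real Set.univ = ∫ _, roundGB m δ ∂μ := by
    rw [MeasureTheory.integral_const, smul_eq_mul, mul_comm]
  rw [h1]
  refine MeasureTheory.integral_mono (MeasureTheory.integrable_const _) (hi.const_mul _) fun p => ?_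
  exact blocks_bound (K.e p) hδ (h p)

end fields

end Pool.Agent.Helper147.HT
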